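import Pool.Agent.Work.MP_510402_an.Interface

set_option autoImplicit false

namespace Pool.HAP

theorem stmt_Beta : Stmt_Beta := by
  have hK : ∀ j : ℕ, (0 : ℝ) < ((2 ^ j + 1 : ℕ) : ℝ) := fun j => by positivity
  refine ⟨fun j => ((2 : ℝ) ^ j) ^ (1 / ((2 ^ j + 1 : ℕ) : ℝ)), fun j => ?_⟩
  set K : ℝ := ((2 ^ j + 1 : ℕ) : ℝ) with hKd
  have hK0 : 0 < K := hK j
  have h2 : (1 : ℝ) ≤ (2 : ℝ) ^ j := one_le_pow₀ (by norm_num)
  have h20 : (0 : ℝ) ≤ (2 : ℝ) ^ j := by positivity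
  have hKr : K = 2 ^ j + 1 := by rw [hKd]; push_cast; ring
  have hpow : ∀ k : ℕ, (((2 : ℝ) ^ j) ^ (1 / K)) ^ k = ((2 : ℝ) ^ j) ^ ((k : ℝ) / K) := by
    intro k
    rw [← Real.rpow_natCast, ← Real.rpow_mul h20]
    congr 1
    field_simp
  refine ⟨Real.one_le_rpow h2 (by positivity), ?_, ?_, ?_⟩
  · have h3 : ((2 : ℝ) ^ j) ^ (1 / K) ≤ ((2 : ℝ) ^ K) ^ (1 / K) := by
      apply Real.rpow_le_rpow h20 _ (by positivity)
      rw [← Real.rpow_natCast]
      apply Real.rpow_le_rpow_of_exponent_le (by norm_num)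
      rw [hKr]
      have : (j : ℝ) < 2 ^ j := by exact_mod_cast Nat.lt_two_pow_self
      linarith
    rw [← Real.rpow_mul (by norm_num)] at h3
    rwa [mul_one_div_cancel hK0.ne', Real.rpow_one] at h3
  · rw [hpow, ← hKd, div_self hK0.ne', Real.rpow_one]
  · intro k hk
    rw [hpow]
    have hkK : (k : ℝ) ≤ K := by rw [hKd]; exact_mod_cast hk
    have hk0 : (0 : ℝ) ≤ k := Nat.cast_nonneg k
    have h4 := _root_.rpow_one_add_le_one_add_mul_self (s := (2 : ℝ) ^ j - 1) (by linarith)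
      (p := (k : ℝ) / K) (by positivity) ((div_le_one hK0).mpr hkK)
    rw [add_sub_cancel] at h4
    refine h4.trans ?_
    have h5 : (k : ℝ) / K * ((2 : ℝ) ^ j - 1) ≤ k := by
      rw [div_mul_eq_mul_div, div_le_iff₀ hK0, hKr]
      nlinarith
    linarith

end Pool.HAP
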