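import Pool.Agent.Work.MP_510402_an.Interface

set_option autoImplicit false

namespace Pool.HAP

theorem stmt_Log : Stmt_Log := by
  intro ε hε
  -- eventually `4 * (3 + 2 * log n) ≤ ε ^ 2 * log n ^ 2`
  have ht : Filter.Tendsto (fun n : ℕ => Real.log (n : ℝ)) Filter.atTop Filter.atTop :=
    Real.tendsto_log_atTop.comp tendsto_natCast_atTop_atTop
  obtain ⟨N, hN⟩ := Filter.eventually_atTop.mp (ht.eventually_ge_atTop (1 + 20 / ε ^ 2))
  refine ⟨max N 1, fun n hn => ?_⟩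
  have hn1 : 1 ≤ n := (le_max_right _ _).trans hn
  have hn0 : n ≠ 0 := by omega
  have hnR : (1 : ℝ) ≤ n := by exact_mod_cast hn1
  have hlog := hN n ((le_max_left _ _).trans hn)
  have h2 : 0 < 20 / ε ^ 2 := by positivity
  have hlog1 : 1 ≤ Real.log (n : ℝ) := by linarith
  refine ⟨hn1, ?_, ?_⟩
  · have h : n < 2 ^ (Nat.log 2 n + 1) := Nat.lt_pow_succ_log_self (by norm_num) n
    have h' : (n : ℝ) + 1 ≤ 2 ^ (Nat.log 2 n + 1) := by exact_mod_cast h
    have h4 : (4 : ℝ) ^ (Nat.log 2 n + 1) = (2 ^ (Nat.log 2 n + 1)) ^ 2 := by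
      rw [← pow_mul, mul_comm, pow_mul]; norm_num
    rw [h4]
    nlinarith
  · have h : 2 ^ Nat.log 2 n ≤ n := Nat.pow_log_le_self 2 hn0
    have h' : (2 : ℝ) ^ Nat.log 2 n ≤ n := by exact_mod_cast h
    have h3 : (Nat.log 2 n : ℝ) * Real.log 2 ≤ Real.log n := by
      rw [← Real.log_pow]
      exact Real.log_le_log (by positivity) h'
    have hl2 : (1 : ℝ) / 2 ≤ Real.log 2 := by linarith [Real.log_two_gt_d9]
    have h5 : (Nat.log 2 n : ℝ) ≤ 2 * Real.log n := by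
      have h0 : (0 : ℝ) ≤ (Nat.log 2 n : ℝ) := Nat.cast_nonneg _
      nlinarith
    have h6 : 1 + ((Nat.log 2 n + 1 : ℕ) : ℝ) ≤ 5 * Real.log n := by
      push_cast; linarith
    have h7 : 20 / ε ^ 2 ≤ Real.log n := by linarith
    have h8 : 20 ≤ Real.log n * ε ^ 2 := by
      rwa [div_le_iff₀ (by positivity)] at h7
    have h9 : (0 : ℝ) ≤ ε * Real.log n := by positivity
    have h10 : 4 * (5 * Real.log n) ≤ (ε * Real.log n) ^ 2 := by nlinarith
    have h11 : 2 * Real.sqrt (1 + ((Nat.log 2 n + 1 : ℕ) : ℝ)) =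
        Real.sqrt (4 * (1 + ((Nat.log 2 n + 1 : ℕ) : ℝ))) := by
      rw [Real.sqrt_mul (by norm_num), show (4 : ℝ) = 2 ^ 2 by norm_num,
        Real.sqrt_sq (by norm_num)]
    rw [h11]
    apply Real.sqrt_le_iff.mpr
    refine ⟨h9, ?_⟩
    nlinarith

end Pool.HAP
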