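import Pool.Agent.Work.MP_510402_an.Assembly

set_option autoImplicit false

namespace Pool.HAP

open scoped BigOperators InnerProductSpace

theorem rate_num (n : ℕ) (hn : 2 ≤ n) :
    2 * Real.sqrt (1 + ((Nat.log 2 n + 1 : ℕ) : ℝ)) ≤ 5 * Real.sqrt (Real.log n) := by
  have hn0 : n ≠ 0 := by omega
  have hnR : (2 : ℝ) ≤ n := by exact_mod_cast hn
  have h : 2 ^ Nat.log 2 n ≤ n := Nat.pow_log_le_self 2 hn0
  have h' : (2 : ℝ) ^ Nat.log 2 n ≤ n := by exact_mod_cast h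
  have h3 : (Nat.log 2 n : ℝ) * Real.log 2 ≤ Real.log n := by
    rw [← Real.log_pow]
    exact Real.log_le_log (by positivity) h'
  have hl2 : (0.69 : ℝ) ≤ Real.log 2 := by linarith [Real.log_two_gt_d9]
  have hl3 : Real.log 2 ≤ Real.log n := Real.log_le_log (by norm_num) hnR
  have hm : (0 : ℝ) ≤ (Nat.log 2 n : ℝ) := Nat.cast_nonneg _
  have h5 : (Nat.log 2 n : ℝ) * 0.69 ≤ Real.log n := by nlinarith
  have h6 : 4 * (1 + ((Nat.log 2 n + 1 : ℕ) : ℝ)) ≤ 25 * Real.log n := by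
    push_cast; nlinarith
  have e1 : 2 * Real.sqrt (1 + ((Nat.log 2 n + 1 : ℕ) : ℝ)) =
      Real.sqrt (4 * (1 + ((Nat.log 2 n + 1 : ℕ) : ℝ))) := by
    rw [Real.sqrt_mul (by norm_num), show (4 : ℝ) = 2 ^ 2 by norm_num,
      Real.sqrt_sq (by norm_num)]
  have e2 : 5 * Real.sqrt (Real.log n) = Real.sqrt (25 * Real.log n) := by
    rw [Real.sqrt_mul (by norm_num), show (25 : ℝ) = 5 ^ 2 by norm_num,
      Real.sqrt_sq (by norm_num)]
  rw [e1, e2]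
  exact Real.sqrt_le_sqrt h6

theorem num2 (n : ℕ) : (n : ℝ) ^ 2 + 1 ≤ 4 ^ (Nat.log 2 n + 1) := by
  have h : n < 2 ^ (Nat.log 2 n + 1) := Nat.lt_pow_succ_log_self (by norm_num) n
  have h' : (n : ℝ) + 1 ≤ 2 ^ (Nat.log 2 n + 1) := by exact_mod_cast h
  have h4 : (4 : ℝ) ^ (Nat.log 2 n + 1) = (2 ^ (Nat.log 2 n + 1)) ^ 2 := by
    rw [← pow_mul, mul_comm, pow_mul]; norm_num
  have hn : (0 : ℝ) ≤ n := Nat.cast_nonneg n
  rw [h4]
  nlinarith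

theorem main_rate (hFr : Stmt_Frames) (hN : Stmt_Norm) (hB : Stmt_Beta) (hE : Stmt_Euc)
    (hC : Stmt_XComplete) (hX : Stmt_XInt) (hEm : Stmt_Emb) (hA : Stmt_APF) :
    ∃ (X : Type) (_ : NormedAddCommGroup X) (_ : NormedSpace ℝ X) (_ : CompleteSpace X),
      (∀ n : ℕ, 2 ≤ n → ∀ E : Submodule ℝ X, Module.finrank ℝ E = n →
          ∃ T : E →ₗ[ℝ] EuclideanSpace ℝ (Fin n),
            ∀ x : E, ‖x‖ ≤ ‖T x‖ ∧ ‖T x‖ ≤ 5 * Real.sqrt (Real.log (n : ℝ)) * ‖x‖) ∧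
      ∃ Z : Submodule ℝ X, IsClosed (Z : Set X) ∧
        ¬ (∀ K : Set Z, IsCompact K → ∀ δ : ℝ, 0 < δ →
          ∃ T : Z →L[ℝ] Z, FiniteDimensional ℝ (LinearMap.range (T : Z →ₗ[ℝ] Z)) ∧
            ∀ x ∈ K, ‖T x - x‖ < δ) := by
  obtain ⟨S⟩ := exists_SData hFr hN hB
  obtain ⟨Z, hZc, io, pr, h1, h2, h3, h4, h5⟩ := hEm S
  refine ⟨S.X, inferInstance, inferInstance, hC S, ?_, Z, hZc, hA Z S.Fr io pr h1 h2 h3 h4 h5⟩
  intro n hn E hEn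
  set r : ℕ := Nat.log 2 n + 1 with hr
  have hD0 : (0 : ℝ) ≤ 1 + (r : ℝ) := by positivity
  have hD : (1 : ℝ) ≤ Real.sqrt (1 + (r : ℝ)) := by
    rw [Real.one_le_sqrt]
    have : (0 : ℝ) ≤ r := Nat.cast_nonneg r
    linarith
  obtain ⟨T, hT⟩ := hE E n (by omega) hEn (Real.sqrt (1 + (r : ℝ))) hD (by
    intro a b A hAc hHS y
    have h := hX S r a b A hAc (hHS.trans (num2 n)) (fun j => ((y j : E) : S.X))
    rw [Real.sq_sqrt hD0]
    have e1 : ∀ i, ‖∑ j, A i j • y j‖ = ‖∑ j, A i j • ((y j : E) : S.X)‖ := by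
      intro i
      have e0 : ((∑ j, A i j • y j : E) : S.X) = ∑ j, A i j • ((y j : E) : S.X) := by
        rw [AddSubmonoidClass.coe_finsetSum]
        rfl
      rw [← e0]
      rfl
    have e2 : ∀ j, ‖y j‖ = ‖((y j : E) : S.X)‖ := fun j => rfl
    simp only [e1, e2]
    exact h)
  refine ⟨T, fun x => ⟨(hT x).1, (hT x).2.trans ?_⟩⟩
  exact mul_le_mul_of_nonneg_right (rate_num n hn) (norm_nonneg x)

end Pool.HAP
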