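import Pool.Agent.Work.MP_510402_an.Interface

set_option autoImplicit false

namespace Pool.HAP

theorem stmt_XComplete : Stmt_XComplete := by
  intro S
  have h1 : ∀ j, FiniteDimensional ℝ (S.XJ j) := fun j =>
    inferInstanceAs (FiniteDimensional ℝ (EuclideanSpace ℝ (Ix S.Fr j)))
  have h2 : ∀ j, CompleteSpace (S.XJ j) := fun j => FiniteDimensional.complete ℝ (S.XJ j)
  infer_instance

end Pool.HAP
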