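import Pool.Agent.Work.MP_510402_an.Interface

set_option autoImplicit false

namespace Pool.HAP

open scoped BigOperators InnerProductSpace

namespace TEL

theorem eu_decomp {n : ℕ} (v : Eu n) : v = ∑ b, v b • (EuclideanSpace.single b 1 : Eu n) := by
  ext k
  simp [Finset.sum_apply, Pi.single_apply]

theorem gen {n m L : ℕ} (G : Eu n →ₗ[ℝ] Eu m) (u : Fin L → Eu m) (v : Fin L → Eu n) :
    ∑ l, ⟪u l, G (v l)⟫_ℝ =
      ∑ a, ∑ b, (∑ l, u l a * v l b) * (G (EuclideanSpace.single b 1)) a := by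
  have h1 : ∀ l, ⟪u l, G (v l)⟫_ℝ =
      ∑ a, ∑ b, (u l a * v l b) * (G (EuclideanSpace.single b 1)) a := by
    intro l
    rw [PiLp.inner_apply]
    refine Finset.sum_congr rfl fun a _ => ?_
    have h2 : G (v l) = ∑ b, v l b • G (EuclideanSpace.single b 1) := by
      conv_lhs => rw [eu_decomp (v l)]
      rw [map_sum]
      simp
    rw [h2]
    have h3 : (∑ b, v l b • G (EuclideanSpace.single b 1) : Eu m) a =
        ∑ b, v l b * (G (EuclideanSpace.single b 1)) a := by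
      simp [Finset.sum_apply]
    rw [h3]
    simp only [RCLike.inner_apply, conj_trivial]
    rw [Finset.sum_mul]
    refine Finset.sum_congr rfl fun b _ => ?_
    ring
  simp only [h1]
  rw [Finset.sum_comm]
  refine Finset.sum_congr rfl fun a _ => ?_
  rw [Finset.sum_comm]
  refine Finset.sum_congr rfl fun b _ => ?_
  rw [Finset.sum_mul]

end TEL

theorem stmt_Tel : Stmt_Tel := by
  intro Z _ _ Fr io pr T j
  have hL : (Fr.Lc j : ℝ) ≠ 0 := by
    have := Fr.L_pos j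
    positivity
  have e1 : ∑ l, ⟪Fr.y j l, pr j (T (io j (Fr.y j l)))⟫_ℝ =
      (Fr.Lc j : ℝ) / (Fr.N j : ℝ) * trj (io j) (pr j) T := by
    have h := TEL.gen (pr j ∘ₗ T ∘ₗ io j) (Fr.y j) (Fr.y j)
    simp only [LinearMap.comp_apply] at h
    rw [h]
    simp only [Fr.yy]
    simp only [ite_mul, zero_mul, Finset.sum_ite_eq, Finset.mem_univ, if_true]
    rw [trj, Finset.mul_sum]
  have e2 : ∑ l, ⟪Fr.y j l, pr j (T (io (j + 1) (Fr.z j l)))⟫_ℝ = 0 := by
    have h := TEL.gen (pr j ∘ₗ T ∘ₗ io (j + 1)) (Fr.y j) (Fr.z j)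
    simp only [LinearMap.comp_apply] at h
    rw [h]
    simp only [Fr.yz]
    simp
  have e3 : ∑ l, ⟪Fr.z j l, pr (j + 1) (T (io j (Fr.y j l)))⟫_ℝ = 0 := by
    have h := TEL.gen (pr (j + 1) ∘ₗ T ∘ₗ io j) (Fr.z j) (Fr.y j)
    simp only [LinearMap.comp_apply] at h
    rw [h]
    have h0 : ∀ a b, ∑ l, Fr.z j l a * Fr.y j l b = 0 := by
      intro a b
      rw [← Fr.yz j b a]
      exact Finset.sum_congr rfl fun l _ => mul_comm _ _
    simp only [h0]
    simp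
  have e4 : ∑ l, ⟪Fr.z j l, pr (j + 1) (T (io (j + 1) (Fr.z j l)))⟫_ℝ =
      (Fr.Lc j : ℝ) / (Fr.N (j + 1) : ℝ) * trj (io (j + 1)) (pr (j + 1)) T := by
    have h := TEL.gen (pr (j + 1) ∘ₗ T ∘ₗ io (j + 1)) (Fr.z j) (Fr.z j)
    simp only [LinearMap.comp_apply] at h
    rw [h]
    simp only [Fr.zz]
    simp only [ite_mul, zero_mul, Finset.sum_ite_eq, Finset.mem_univ, if_true]
    rw [trj, Finset.mul_sum]
  have e5 : ∑ l, (⟪Fr.y j l, pr j (T (io j (Fr.y j l) + io (j + 1) (Fr.z j l)))⟫_ℝ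
      - ⟪Fr.z j l, pr (j + 1) (T (io j (Fr.y j l) + io (j + 1) (Fr.z j l)))⟫_ℝ) =
      (Fr.Lc j : ℝ) / (Fr.N j : ℝ) * trj (io j) (pr j) T
      - (Fr.Lc j : ℝ) / (Fr.N (j + 1) : ℝ) * trj (io (j + 1)) (pr (j + 1)) T := by
    simp only [map_add, inner_add_right]
    rw [Finset.sum_sub_distrib, Finset.sum_add_distrib, Finset.sum_add_distrib, e1, e2, e3, e4]
    ring
  rw [e5, sub_div]
  congr 1
  · field_simp
  · field_simp

end Pool.HAP
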