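import Pool.Agent.Work.MP_510402_an.Interface

set_option autoImplicit false

namespace Pool.HAP

namespace XINT

theorem hasSum_sq (S : SData) (x : S.X) : HasSum (fun j => ‖(x : ∀ j, S.XJ j) j‖ ^ 2) (‖x‖ ^ 2) := by
  have h := lp.hasSum_norm (p := 2) (by norm_num) x
  simpa using h

theorem level (S : SData) (r a b : ℕ) (A : Matrix (Fin a) (Fin b) ℝ) (hA : Contr A)
    (hHS : HS A ≤ 4 ^ r) (j : ℕ) (y : Fin b → S.XJ j) :
    ∑ i, ‖∑ l, A i l • y l‖ ^ 2 ≤ (1 + (r : ℝ)) * ∑ l, ‖y l‖ ^ 2 := by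
  have h := (S.good j).interp r a b A hA hHS (fun l => (y l : EuclideanSpace ℝ (Ix S.Fr j)))
  have hb : S.β j ^ (min r (2 ^ j + 1)) ≤ 1 + (r : ℝ) := by
    refine (S.β_bd j _ (min_le_right _ _)).trans ?_
    have : ((min r (2 ^ j + 1) : ℕ) : ℝ) ≤ r := by exact_mod_cast min_le_left _ _
    linarith
  have hs : (0 : ℝ) ≤ ∑ l, ‖y l‖ ^ 2 := Finset.sum_nonneg fun l _ => by positivity
  calc ∑ i, ‖∑ l, A i l • y l‖ ^ 2
      ≤ S.β j ^ (min r (2 ^ j + 1)) * ∑ l, ‖y l‖ ^ 2 := h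
    _ ≤ (1 + (r : ℝ)) * ∑ l, ‖y l‖ ^ 2 := mul_le_mul_of_nonneg_right hb hs

end XINT

theorem stmt_XInt : Stmt_XInt := by
  intro S r a b A hA hHS y
  have h1 : HasSum (fun j => ∑ i, ‖(∑ l, A i l • y l : S.X) j‖ ^ 2)
      (∑ i, ‖(∑ l, A i l • y l : S.X)‖ ^ 2) :=
    hasSum_sum fun i _ => XINT.hasSum_sq S _
  have h2 : HasSum (fun j => (1 + (r : ℝ)) * ∑ l, ‖(y l : S.X) j‖ ^ 2)
      ((1 + (r : ℝ)) * ∑ l, ‖y l‖ ^ 2) :=
    (hasSum_sum fun l _ => XINT.hasSum_sq S (y l)).mul_left _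
  refine hasSum_le (fun j => ?_) h1 h2
  have e : ∀ i, (∑ l, A i l • y l : S.X) j = ∑ l, A i l • (y l : S.X) j := by
    intro i
    rw [lp.coeFn_sum, Finset.sum_apply]
    rfl
  simp only [e]
  exact XINT.level S r a b A hA hHS j (fun l => (y l : S.X) j)

end Pool.HAP
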